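import Mathlib

/-!
# The exact maximum of the sum of the Randić index and the independence number

For every connected graph `G` with `n ≥ 2` vertices there is `1 ≤ a ≤ n / 2` with
`R(G) + α(G) ≤ n - a + √(a (n - a))`, and the complete bipartite graph `K_{a, n - a}` attains this
value for every such `a`. For `n ≥ 11` the choice `a = 2` gives more than `n - 1 + √(n - 1)`.

Upper bound: let `I` be an independent set with `α` vertices and `β = n - α`. If `β ≤ α`, put
`t = √(β / α) ≤ 1`; then `1 / √(d_i d_j) ≤ (t / d_i + t⁻¹ / d_j) / 2` for the edges between `I` and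
its complement and `1 / √(d_j d_k) ≤ t⁻¹ (1 / d_j + 1 / d_k) / 2` for the other edges, and summing
over all edges gives `R ≤ (t α + t⁻¹ β) / 2 = √(α β)`. If `α < β`, then `R + α ≤ n / 2 + n / 2`.
-/

set_option autoImplicit false

namespace Pool.Agent.Results.MP_e31007_co.ExactMaximum

open Finset

/-- The Randić index: the sum of `1 / √(d_u d_v)` over the edges `uv` (every edge occurs twice in the
double sum). -/
noncomputable def randic {V : Type*} [Fintype V] (G : SimpleGraph V) [DecidableRel G.Adj] : ℝ :=
  (∑ u, ∑ v, if G.Adj u v then 1 / Real.sqrt ((G.degree u : ℝ) * (G.degree v : ℝ)) else 0) / 2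

theorem inner_sum {V : Type*} [Fintype V] (G : SimpleGraph V) [DecidableRel G.Adj]
    (c : ℝ) (hc : 0 ≤ c) (u : V) :
    (∑ v, if G.Adj u v then c / (G.degree u : ℝ) else 0) ≤ c := by
  classical
  rw [← Finset.sum_filter, Finset.sum_const, nsmul_eq_mul]
  have h1 : (univ.filter (fun v => G.Adj u v)).card = G.degree u := by
    rw [← SimpleGraph.card_neighborFinset_eq_degree]
    congr 1
    ext v
    simp
  rw [h1]
  by_cases h : (G.degree u : ℝ) = 0
  · rw [h]; simpa using hc
  · rw [mul_div_cancel₀ _ h]

/-- The basic inequality. -/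
theorem randic_le {V : Type*} [Fintype V] (G : SimpleGraph V) [DecidableRel G.Adj]
    (w : V → ℝ) (hw : ∀ u, 0 < w u) (h : ∀ u v, G.Adj u v → 1 ≤ w u * w v) :
    randic G ≤ (∑ u, w u) / 2 := by
  classical
  have hpt : ∀ u v, (if G.Adj u v then 1 / Real.sqrt ((G.degree u : ℝ) * (G.degree v : ℝ)) else 0) ≤
      ((if G.Adj u v then w u / (G.degree u : ℝ) else 0) +
        (if G.Adj v u then w v / (G.degree v : ℝ) else 0)) / 2 := by
    intro u v
    by_cases huv : G.Adj u v
    · rw [if_pos huv, if_pos huv, if_pos huv.symm]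
      have hu : (0 : ℝ) < G.degree u := by
        exact_mod_cast (SimpleGraph.degree_pos_iff_exists_adj G u).2 ⟨v, huv⟩
      have hv : (0 : ℝ) < G.degree v := by
        exact_mod_cast (SimpleGraph.degree_pos_iff_exists_adj G v).2 ⟨u, huv.symm⟩
      have h1 := h u v huv
      have h2 : Real.sqrt ((w u / G.degree u) * (w v / G.degree v)) ≤
          (w u / G.degree u + w v / G.degree v) / 2 := by
        have ha : 0 ≤ w u / (G.degree u : ℝ) := (div_pos (hw u) hu).le
        have hb : 0 ≤ w v / (G.degree v : ℝ) := (div_pos (hw v) hv).le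
        rw [Real.sqrt_le_left (by positivity)]
        nlinarith [sq_nonneg (w u / (G.degree u : ℝ) - w v / (G.degree v : ℝ))]
      refine le_trans ?_ h2
      rw [one_div, ← Real.sqrt_inv]
      apply Real.sqrt_le_sqrt
      rw [div_mul_div_comm, inv_eq_one_div]
      apply div_le_div_of_nonneg_right h1 (by positivity)
    · rw [if_neg huv, if_neg huv, if_neg (fun h' => huv h'.symm)]
      norm_num
  have hS : ∑ u, ∑ v, (if G.Adj u v then 1 / Real.sqrt ((G.degree u : ℝ) * (G.degree v : ℝ)) else 0)
      ≤ ∑ u, w u := by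
    calc _ ≤ ∑ u, ∑ v, ((if G.Adj u v then w u / (G.degree u : ℝ) else 0) +
        (if G.Adj v u then w v / (G.degree v : ℝ) else 0)) / 2 :=
          Finset.sum_le_sum fun u _ => Finset.sum_le_sum fun v _ => hpt u v
      _ = ((∑ u, ∑ v, if G.Adj u v then w u / (G.degree u : ℝ) else 0) +
          (∑ u, ∑ v, if G.Adj v u then w v / (G.degree v : ℝ) else 0)) / 2 := by
          rw [← Finset.sum_add_distrib, Finset.sum_div]
          apply Finset.sum_congr rfl
          intro u _
          rw [← Finset.sum_add_distrib, Finset.sum_div]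
      _ = (∑ u, ∑ v, if G.Adj u v then w u / (G.degree u : ℝ) else 0) := by
          rw [Finset.sum_comm (f := fun u v => if G.Adj v u then w v / (G.degree v : ℝ) else 0)]
          ring
      _ ≤ ∑ u, w u := Finset.sum_le_sum fun u _ => inner_sum G (w u) (hw u).le u
  unfold randic
  linarith

theorem upper (V : Type) [Fintype V] (G : SimpleGraph V) [DecidableRel G.Adj]
    (hn : 2 ≤ Fintype.card V) (hG : G.Connected) :
    ∃ a : ℕ, 1 ≤ a ∧ 2 * a ≤ Fintype.card V ∧ randic G + (G.indepNum : ℝ) ≤
      (Fintype.card V : ℝ) - a + Real.sqrt (a * ((Fintype.card V : ℝ) - a)) := by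
  classical
  obtain ⟨I, hI⟩ := G.exists_isNIndepSet_indepNum
  rw [SimpleGraph.isNIndepSet_iff] at hI
  obtain ⟨hind, hcard⟩ := hI
  have hle : I.card ≤ Fintype.card V := card_le_univ I
  have hlt : I.card < Fintype.card V := by
    rcases lt_or_eq_of_le hle with h | h
    · exact h
    · exfalso
      have hu : I = univ := (card_eq_iff_eq_univ I).1 h
      have : Nontrivial V := Fintype.one_lt_card_iff_nontrivial.1 (by omega)
      obtain ⟨x⟩ : Nonempty V := inferInstance
      obtain ⟨y, hxy⟩ := hG.preconnected.exists_adj_of_nontrivial x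
      exact hind (by simp [hu]) (by simp [hu]) hxy.ne hxy
  set n := Fintype.card V with hn'
  rw [← hcard]
  by_cases hc : n ≤ 2 * I.card
  · -- large independent set
    obtain ⟨b, hb⟩ := Nat.exists_eq_add_of_lt hlt
    set β : ℕ := b + 1 with hβ
    have hnb : n = I.card + β := by omega
    have hβI : β ≤ I.card := by omega
    refine ⟨β, by omega, by omega, ?_⟩
    have hβ0 : (0 : ℝ) < β := by exact_mod_cast (by omega : 0 < β)
    have hI0 : (0 : ℝ) < I.card := by exact_mod_cast (by omega : 0 < I.card)
    set t : ℝ := Real.sqrt (β / I.card) with ht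
    have ht0 : 0 < t := Real.sqrt_pos.2 (by positivity)
    have ht1 : t ≤ 1 := by
      rw [ht, Real.sqrt_le_one, div_le_one hI0]
      exact_mod_cast hβI
    have hinv : 1 ≤ t⁻¹ := (one_le_inv₀ ht0).2 ht1
    have hr := randic_le G (fun u => if u ∈ I then t else t⁻¹)
      (by
        intro u
        by_cases hu : u ∈ I
        · simp [hu, ht0]
        · simp [hu, ht0])
      (by
        intro u v huv
        by_cases hu : u ∈ I
        · by_cases hv : v ∈ I
          · exact absurd huv (hind (by simpa using hu) (by simpa using hv) huv.ne)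
          · simp only [hu, hv, if_true, if_false]
            rw [mul_inv_cancel₀ ht0.ne']
        · by_cases hv : v ∈ I
          · simp only [hu, hv, if_true, if_false]
            rw [inv_mul_cancel₀ ht0.ne']
          · simp only [hu, hv, if_false]
            nlinarith)
    have hsum : ∑ u, (if u ∈ I then t else t⁻¹) = I.card * t + β * t⁻¹ := by
      rw [Finset.sum_ite, Finset.sum_const, Finset.sum_const, nsmul_eq_mul, nsmul_eq_mul]
      have h1 : (univ.filter (fun u => u ∈ I)).card = I.card := by
        congr 1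
        ext u
        simp
      have h2 : (univ.filter (fun u => u ∉ I)).card = β := by
        have := card_filter_add_card_filter_not (s := (univ : Finset V)) (fun u => u ∈ I)
        rw [h1, card_univ] at this
        omega
      rw [h1, h2]
    rw [hsum] at hr
    have hsq : Real.sqrt (β * I.card) = I.card * t := by
      rw [ht, Real.sqrt_div' _ hI0.le, Real.sqrt_mul' _ hI0.le]
      have : Real.sqrt (I.card : ℝ) * Real.sqrt (I.card : ℝ) = I.card :=
        Real.mul_self_sqrt hI0.le
      have h3 : (0 : ℝ) < Real.sqrt (I.card : ℝ) := Real.sqrt_pos.2 hI0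
      field_simp
      rw [pow_two, this]
    have hsq2 : Real.sqrt (β * I.card) = β * t⁻¹ := by
      have h4 : t * t = β / I.card := Real.mul_self_sqrt (by positivity)
      rw [hsq]
      field_simp at h4 ⊢
      linarith
    have h5 : ((n : ℝ) - β) = I.card := by
      rw [hnb]; push_cast; ring
    rw [h5]
    linarith
  · -- small independent set
    refine ⟨1, le_rfl, by omega, ?_⟩
    have hr := randic_le G (fun _ => 1) (fun _ => one_pos) (fun _ _ _ => by norm_num)
    rw [Finset.sum_const, card_univ, nsmul_eq_mul, mul_one, ← hn'] at hr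
    have h1 : (2 * (I.card : ℝ)) + 1 ≤ n := by exact_mod_cast (by omega : 2 * I.card + 1 ≤ n)
    have h2 : (1 : ℝ) ≤ Real.sqrt (((1 : ℕ) : ℝ) * ((n : ℝ) - ((1 : ℕ) : ℝ))) := by
      rw [Real.one_le_sqrt]
      have : (2 : ℝ) ≤ n := by exact_mod_cast hn
      push_cast
      linarith
    push_cast at h2 ⊢
    linarith

theorem bip_indepNum (a b : ℕ) (h : a ≤ b) :
    (completeBipartiteGraph (Fin a) (Fin b)).indepNum = b := by
  classical
  apply le_antisymm
  · obtain ⟨s, hs⟩ := (completeBipartiteGraph (Fin a) (Fin b)).exists_isNIndepSet_indepNum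
    rw [SimpleGraph.isNIndepSet_iff] at hs
    obtain ⟨hind, hcard⟩ := hs
    rw [← hcard]
    by_cases hx : ∃ x : Fin a, Sum.inl x ∈ s
    · obtain ⟨x, hx⟩ := hx
      have hsub : s ⊆ (univ : Finset (Fin a)).image Sum.inl := by
        intro y hy
        rcases y with y | y
        · exact mem_image_of_mem _ (mem_univ y)
        · exfalso
          refine hind (x := Sum.inl x) (by simpa using hx) (y := Sum.inr y) (by simpa using hy)
            (by simp) ?_
          simp [completeBipartiteGraph]
      calc s.card ≤ ((univ : Finset (Fin a)).image Sum.inl).card := card_le_card hsub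
        _ ≤ (univ : Finset (Fin a)).card := card_image_le
        _ = a := by simp
        _ ≤ b := h
    · have hsub : s ⊆ (univ : Finset (Fin b)).image Sum.inr := by
        intro y hy
        rcases y with y | y
        · exact absurd ⟨y, hy⟩ hx
        · exact mem_image_of_mem _ (mem_univ y)
      calc s.card ≤ ((univ : Finset (Fin b)).image Sum.inr).card := card_le_card hsub
        _ ≤ (univ : Finset (Fin b)).card := card_image_le
        _ = b := by simp
  · have hind : (completeBipartiteGraph (Fin a) (Fin b)).IsIndepSet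
        (((univ : Finset (Fin b)).image Sum.inr : Finset (Fin a ⊕ Fin b)) : Set _) := by
      intro x hx y hy _ hadj
      simp only [coe_image, coe_univ, Set.image_univ, Set.mem_range] at hx hy
      obtain ⟨x, rfl⟩ := hx
      obtain ⟨y, rfl⟩ := hy
      simp [completeBipartiteGraph] at hadj
    have := hind.card_le_indepNum
    rwa [card_image_of_injective _ Sum.inr_injective, card_univ, Fintype.card_fin] at this

theorem bip_randic (a b : ℕ) (ha : 1 ≤ a) (hb : 1 ≤ b)
    [DecidableRel (completeBipartiteGraph (Fin a) (Fin b)).Adj] :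
    randic (completeBipartiteGraph (Fin a) (Fin b)) = Real.sqrt (a * b) := by
  classical
  have hl : ∀ x : Fin a, (completeBipartiteGraph (Fin a) (Fin b)).degree (Sum.inl x) = b := by
    intro x
    rw [← SimpleGraph.card_neighborFinset_eq_degree]
    have : (completeBipartiteGraph (Fin a) (Fin b)).neighborFinset (Sum.inl x) =
        (univ : Finset (Fin b)).image Sum.inr := by
      ext y
      rw [SimpleGraph.mem_neighborFinset]
      rcases y with y | y <;> simp [completeBipartiteGraph]
    rw [this, card_image_of_injective _ Sum.inr_injective, card_univ, Fintype.card_fin]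
  have hr : ∀ x : Fin b, (completeBipartiteGraph (Fin a) (Fin b)).degree (Sum.inr x) = a := by
    intro x
    rw [← SimpleGraph.card_neighborFinset_eq_degree]
    have : (completeBipartiteGraph (Fin a) (Fin b)).neighborFinset (Sum.inr x) =
        (univ : Finset (Fin a)).image Sum.inl := by
      ext y
      rw [SimpleGraph.mem_neighborFinset]
      rcases y with y | y <;> simp [completeBipartiteGraph]
    rw [this, card_image_of_injective _ Sum.inl_injective, card_univ, Fintype.card_fin]
  unfold randic
  rw [Fintype.sum_sum_type]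
  simp only [Fintype.sum_sum_type, hl, hr]
  have e1 : ∀ x y : Fin a, ¬ (completeBipartiteGraph (Fin a) (Fin b)).Adj (Sum.inl x)
    (Sum.inl y) := by intro x y; simp [completeBipartiteGraph]
  have e2 : ∀ x y : Fin b, ¬ (completeBipartiteGraph (Fin a) (Fin b)).Adj (Sum.inr x)
    (Sum.inr y) := by intro x y; simp [completeBipartiteGraph]
  have e3 : ∀ (x : Fin a) (y : Fin b), (completeBipartiteGraph (Fin a) (Fin b)).Adj (Sum.inl x)
    (Sum.inr y) := by intro x y; simp [completeBipartiteGraph]
  have e4 : ∀ (x : Fin b) (y : Fin a), (completeBipartiteGraph (Fin a) (Fin b)).Adj (Sum.inr x)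
    (Sum.inl y) := by intro x y; simp [completeBipartiteGraph]
  simp only [e1, e2, e3, e4, if_true, if_false, Finset.sum_const_zero, zero_add, add_zero,
    Finset.sum_const, card_univ, Fintype.card_fin, nsmul_eq_mul]
  have ha0 : (0 : ℝ) < a := by exact_mod_cast ha
  have hb0 : (0 : ℝ) < b := by exact_mod_cast hb
  have hab : (0 : ℝ) < a * b := by positivity
  have h1 : Real.sqrt ((a : ℝ) * b) * Real.sqrt ((a : ℝ) * b) = a * b := Real.mul_self_sqrt hab.le
  have h2 : 0 < Real.sqrt ((a : ℝ) * b) := Real.sqrt_pos.2 hab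
  rw [mul_comm (b : ℝ) (a : ℝ)]
  field_simp
  nlinarith

theorem bip_connected (a b : ℕ) (ha : 1 ≤ a) (hb : 1 ≤ b) :
    (completeBipartiteGraph (Fin a) (Fin b)).Connected := by
  have key : ∀ x : Fin a ⊕ Fin b,
      (completeBipartiteGraph (Fin a) (Fin b)).Reachable (Sum.inl ⟨0, ha⟩) x := by
    intro x
    rcases x with x | x
    · have h1 : (completeBipartiteGraph (Fin a) (Fin b)).Adj (Sum.inl ⟨0, ha⟩)
        (Sum.inr ⟨0, hb⟩) := by simp [completeBipartiteGraph]
      have h2 : (completeBipartiteGraph (Fin a) (Fin b)).Adj (Sum.inr ⟨0, hb⟩)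
        (Sum.inl x) := by simp [completeBipartiteGraph]
      exact h1.reachable.trans h2.reachable
    · have h1 : (completeBipartiteGraph (Fin a) (Fin b)).Adj (Sum.inl ⟨0, ha⟩)
        (Sum.inr x) := by simp [completeBipartiteGraph]
      exact h1.reachable
  have : Nonempty (Fin a ⊕ Fin b) := ⟨Sum.inl ⟨0, ha⟩⟩
  exact ⟨fun x y => (key x).symm.trans (key y)⟩

theorem lower (n a : ℕ) (ha : 1 ≤ a) (han : 2 * a ≤ n) :
    ∃ (V : Type) (_ : Fintype V) (G : SimpleGraph V) (_ : DecidableRel G.Adj),
      Fintype.card V = n ∧ G.Connected ∧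
      randic G + (G.indepNum : ℝ) = (n : ℝ) - a + Real.sqrt (a * ((n : ℝ) - a)) := by
  classical
  obtain ⟨b, rfl⟩ : ∃ b, n = a + b := ⟨n - a, by omega⟩
  refine ⟨Fin a ⊕ Fin b, inferInstance, completeBipartiteGraph (Fin a) (Fin b),
    inferInstance, by simp, bip_connected a b ha (by omega), ?_⟩
  rw [bip_randic a b ha (by omega), bip_indepNum a b (by omega)]
  push_cast
  rw [add_sub_cancel_left]
  ring

/-- **The exact maximum of `R + α`, and the failure of the conjectured bound.** For every connected
graph with `n ≥ 2` vertices, `R + α` is at most `n - a + √(a (n - a))` for some `1 ≤ a ≤ n / 2`, and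
all these values are attained. For every `n ≥ 11` the inequality `R + α ≤ n - 1 + √(n - 1)` fails
for some connected graph with `n` vertices. -/
theorem result :
    (∀ (V : Type) [Fintype V] (G : SimpleGraph V) [DecidableRel G.Adj],
      2 ≤ Fintype.card V → G.Connected →
      ∃ a : ℕ, 1 ≤ a ∧ 2 * a ≤ Fintype.card V ∧ randic G + (G.indepNum : ℝ) ≤
        (Fintype.card V : ℝ) - a + Real.sqrt (a * ((Fintype.card V : ℝ) - a))) ∧
    (∀ n a : ℕ, 1 ≤ a → 2 * a ≤ n →
      ∃ (V : Type) (_ : Fintype V) (G : SimpleGraph V) (_ : DecidableRel G.Adj),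
        Fintype.card V = n ∧ G.Connected ∧
        randic G + (G.indepNum : ℝ) = (n : ℝ) - a + Real.sqrt (a * ((n : ℝ) - a))) ∧
    (∀ n : ℕ, 11 ≤ n →
      ∃ (V : Type) (_ : Fintype V) (G : SimpleGraph V) (_ : DecidableRel G.Adj),
        Fintype.card V = n ∧ G.Connected ∧
        (n : ℝ) - 1 + Real.sqrt ((n : ℝ) - 1) < randic G + (G.indepNum : ℝ)) := by
  refine ⟨fun V _ G _ hn hG => upper V G hn hG, lower, fun n hn => ?_⟩
  obtain ⟨V, h1, G, h2, h3, h4, h5⟩ := lower n 2 (by norm_num) (by omega)
  refine ⟨V, h1, G, h2, h3, h4, ?_⟩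
  rw [h5]
  have hn' : (11 : ℝ) ≤ n := by exact_mod_cast hn
  push_cast
  set x : ℝ := Real.sqrt ((n : ℝ) - 1) with hx
  have hx0 : 0 ≤ x := Real.sqrt_nonneg _
  have hx2 : x * x = n - 1 := Real.mul_self_sqrt (by linarith)
  have hx3 : 3 < x := by
    by_contra h
    nlinarith
  have : 1 + x < Real.sqrt (2 * ((n : ℝ) - 2)) := by
    apply Real.lt_sqrt_of_sq_lt
    nlinarith
  linarith

end Pool.Agent.Results.MP_e31007_co.ExactMaximum
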